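import Pool.Agent.Helper85.PCP.Stmts

/-!
# Module DSTEP: the V-tag system simulates one step of the two-number machine
-/

namespace PCP4

section run

variable {V : ℕ} {P : ℕ → Option (List ℕ)}

/-- `n` steps from `s` to `t` without meeting a halting configuration -/
def dstep_Run (V : ℕ) (P : ℕ → Option (List ℕ)) (n : ℕ) (s t : ℕ × List ℕ) : Prop :=
  (vstep V P)^[n] s = t ∧ ∀ i < n, ¬ VHalt P ((vstep V P)^[i] s)

theorem dstep_zero (s : ℕ × List ℕ) : dstep_Run V P 0 s s :=
  ⟨rfl, fun i hi => absurd hi (Nat.not_lt_zero i)⟩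

theorem dstep_trans {n m : ℕ} {s t u : ℕ × List ℕ} (h1 : dstep_Run V P n s t)
    (h2 : dstep_Run V P m t u) : dstep_Run V P (n + m) s u := by
  obtain ⟨h1, h1'⟩ := h1
  obtain ⟨h2, h2'⟩ := h2
  refine ⟨?_, ?_⟩
  · rw [Nat.add_comm, Function.iterate_add_apply, h1, h2]
  · intro i hi
    by_cases h : i < n
    · exact h1' i h
    · obtain ⟨j, rfl⟩ := Nat.exists_eq_add_of_le (not_lt.mp h)
      rw [Nat.add_comm n j, Function.iterate_add_apply, h1]
      exact h2' j (by omega)

theorem dstep_trans' {n m κ : ℕ} {s u : ℕ × List ℕ} {D D' : List ℕ}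
    (h1 : dstep_Run V P n s (κ, D)) (h2 : dstep_Run V P m (κ, D') u) (h : D = D') :
    dstep_Run V P (n + m) s u := by
  subst h
  exact dstep_trans h1 h2

theorem dstep_skip1 (κ x : ℕ) (D : List ℕ) :
    dstep_Run V P 1 (κ + 1, x :: D) (κ, D) := by
  refine ⟨rfl, fun i hi => ?_⟩
  obtain rfl : i = 0 := by omega
  rintro ⟨τ, D', h, -⟩
  have := congrArg Prod.fst h
  simp at this

theorem dstep_act {τ : ℕ} {p : List ℕ} (h : P τ = some p) (D : List ℕ) :
    dstep_Run V P 1 (0, τ :: D) (V - 1, D ++ p) := by
  refine ⟨?_, fun i hi => ?_⟩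
  · rw [Function.iterate_one, vstep, h]
    rfl
  · obtain rfl : i = 0 := by omega
    rintro ⟨τ', D', h', h''⟩
    rw [Function.iterate_zero, id] at h'
    injection h' with _ h2
    injection h2 with h3 _
    rw [← h3, h] at h''
    exact absurd h'' (by simp)

theorem dstep_skip (E : List ℕ) : ∀ (κ : ℕ) (Q : List ℕ),
    dstep_Run V P E.length (κ + E.length, E ++ Q) (κ, Q) := by
  induction E with
  | nil => exact fun κ Q => dstep_zero _
  | cons e E ih =>
    intro κ Q
    have h := dstep_trans (dstep_skip1 (V := V) (P := P) (κ + E.length) e (E ++ Q)) (ih κ Q)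
    rw [Nat.add_comm] at h
    exact h

theorem dstep_block {τ : ℕ} {p : List ℕ} (h : P τ = some p) (w1 w2 : List ℕ)
    (hV : w1.length + 1 + w2.length = V) (Q : List ℕ) :
    dstep_Run V P V (w1.length, (w1 ++ τ :: w2) ++ Q) (w1.length, Q ++ p) := by
  have h1 := dstep_skip (V := V) (P := P) w1 0 (τ :: w2 ++ Q)
  rw [Nat.zero_add] at h1
  have h2 := dstep_act (V := V) h (w2 ++ Q)
  have h3 := dstep_skip (V := V) (P := P) w2 w1.length (Q ++ p)
  have h4 := dstep_trans (dstep_trans h1 h2) (by
    have h5 : V - 1 = w1.length + w2.length := by omega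
    rw [h5, List.append_assoc]
    exact h3)
  rw [hV] at h4
  rw [List.append_assoc]
  exact h4

theorem dstep_cps_succ (n : ℕ) (w : List ℕ) : cps (n + 1) w = w ++ cps n w := by
  unfold cps
  rw [List.range_succ_eq_map, List.flatMap_cons, List.flatMap_map]

theorem dstep_cps_add (n m : ℕ) (w : List ℕ) : cps (n + m) w = cps n w ++ cps m w := by
  induction n with
  | zero => rw [Nat.zero_add]; rfl
  | succ n ih => rw [Nat.succ_add, dstep_cps_succ, dstep_cps_succ, ih, List.append_assoc]

theorem dstep_cps_mul (n m : ℕ) (w : List ℕ) : cps n (cps m w) = cps (n * m) w := by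
  induction n with
  | zero => rw [Nat.zero_mul]; rfl
  | succ n ih => rw [dstep_cps_succ, ih, ← dstep_cps_add, Nat.succ_mul, Nat.add_comm]

theorem dstep_cps_rep (n m x : ℕ) :
    cps n (List.replicate m x) = List.replicate (n * m) x := by
  induction n with
  | zero => rw [Nat.zero_mul]; rfl
  | succ n ih =>
    rw [dstep_cps_succ, ih, List.replicate_append_replicate, Nat.succ_mul, Nat.add_comm]

theorem dstep_blocks {τ : ℕ} {p : List ℕ} (h : P τ = some p) (w1 w2 : List ℕ)
    (hV : w1.length + 1 + w2.length = V) (n : ℕ) : ∀ Q : List ℕ,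
    dstep_Run V P (n * V) (w1.length, cps n (w1 ++ τ :: w2) ++ Q) (w1.length, Q ++ cps n p) := by
  induction n with
  | zero =>
    intro Q
    rw [Nat.zero_mul]
    have : dstep_Run V P 0 (w1.length, Q) (w1.length, Q) := dstep_zero _
    simpa [cps] using this
  | succ n ih =>
    intro Q
    have h1 := dstep_block h w1 w2 hV (cps n (w1 ++ τ :: w2) ++ Q)
    have h2 := ih (Q ++ p)
    rw [← List.append_assoc] at h2
    have h3 := dstep_trans h1 h2
    rw [dstep_cps_succ, dstep_cps_succ, Nat.succ_mul, Nat.add_comm, List.append_assoc,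
      ← List.append_assoc Q]
    exact h3

end run

/-- decomposition of a block -/
theorem dstep_blk (k ty q r : ℕ) (hr : r < k) : ∃ w1 w2 : List ℕ,
    blk k ty q = w1 ++ sT k ty q r :: w2 ∧ w1.length = (k + 1) * (k - r) - 1 ∧
      w1.length + 1 + w2.length = (k + 1) * k := by
  obtain ⟨i, rfl⟩ : ∃ i, k = i + (1 + r) := ⟨k - (1 + r), by omega⟩
  set k := i + (1 + r) with hk
  have hlen : ∀ (l : List ℕ), (l.flatMap (fun i => List.replicate k 0 ++
      [sT k ty q (k - 1 - i)])).length = l.length * (k + 1) := by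
    intro l
    induction l with
    | nil => simp
    | cons a l ih =>
      rw [List.flatMap_cons, List.length_append, ih]
      simp
      ring
  refine ⟨(List.range i).flatMap (fun i => List.replicate k 0 ++ [sT k ty q (k - 1 - i)]) ++
      List.replicate k 0,
    (((List.range r).map Nat.succ).map (fun x => i + x)).flatMap
      (fun i => List.replicate k 0 ++ [sT k ty q (k - 1 - i)]), ?_, ?_, ?_⟩
  · unfold blk
    have h1 : List.range k = List.range i ++ (i :: ((List.range r).map Nat.succ).map
        (fun x => i + x)) := by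
      rw [hk, List.range_add, Nat.add_comm 1 r, List.range_succ_eq_map, List.map_cons,
        Nat.add_zero]
    rw [h1, List.flatMap_append, List.flatMap_cons, show k - 1 - i = r by omega]
    simp only [List.append_assoc, List.cons_append, List.nil_append]
  · have h2 : (k + 1) * (i + 1) = i * (k + 1) + k + 1 := by ring
    rw [List.length_append, hlen, List.length_range, List.length_replicate,
      show k - r = i + 1 by omega, h2]
    omega
  · rw [List.length_append, hlen, hlen, List.length_range, List.length_replicate,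
      List.length_map, List.length_map, List.length_range, hk]
    ring

theorem st_DSTEP (h1 : ST_DPR) : ST_DSTEP := by
  intro k Q0 q0 qh tab hk c hc
  obtain ⟨q, M, N⟩ := c
  change q ≠ qh at hc
  set P := prod k Q0 q0 qh tab with hP
  set r := N % k with hr
  set a := N / k with ha
  have hrk : r < k := Nat.mod_lt _ (by omega)
  have hN : N = k * a + r := (Nat.div_add_mod N k).symm
  obtain ⟨-, hh, hb, hT, -⟩ := h1 k Q0 q0 qh tab hk q
  obtain ⟨hS, hA, hH, hB⟩ := hT r hrk
  rw [if_neg hc] at hh
  rw [← hP] at hh hb hS hA hH hB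
  set d := dlt k Q0 q0 tab q r with hd
  set V := (k + 1) * k with hV
  set j := (k + 1) * (k - r) - 1 with hj
  have hVpos : 0 < V := Nat.mul_pos (by omega) (by omega)
  have hjr : V - 1 = j + (k + 1) * r := by
    have h2 : (k + 1) * (k - r) + (k + 1) * r = V := by
      rw [← Nat.mul_add, Nat.sub_add_cancel hrk.le]
    have h3 : 0 < (k + 1) * (k - r) := Nat.mul_pos (by omega) (by omega)
    omega
  -- phase 1
  have s1 := dstep_act (V := V) hh
    (List.replicate ((k + 1) * N) (sb k q) ++ (blk k 0 q ++ cps M (blk k 1 q)))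
  have e1 : List.replicate ((k + 1) * N) (sb k q) =
      cps a (List.replicate (V - 1) (sb k q) ++ sb k q :: []) ++
        List.replicate ((k + 1) * r) (sb k q) := by
    have h2 : List.replicate (V - 1) (sb k q) ++ sb k q :: [] = List.replicate V (sb k q) := by
      have h3 : (sb k q :: [] : List ℕ) = List.replicate 1 (sb k q) := rfl
      rw [h3, List.replicate_append_replicate, Nat.sub_add_cancel hVpos]
    rw [h2, dstep_cps_rep, List.replicate_append_replicate, hN, hV]
    congr 1
    ring
  have s2 := dstep_blocks (V := V) hb (List.replicate (V - 1) (sb k q)) [] (by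
    rw [List.length_replicate, List.length_nil]; omega) a
    (List.replicate ((k + 1) * r) (sb k q) ++ ((blk k 0 q ++ cps M (blk k 1 q)) ++ blk k 2 q))
  rw [List.length_replicate] at s2
  have s3 := dstep_skip (V := V) (P := P) (List.replicate ((k + 1) * r) (sb k q)) j
    (((blk k 0 q ++ cps M (blk k 1 q)) ++ blk k 2 q) ++ cps a (blk k 3 q))
  rw [List.length_replicate, ← hjr] at s3
  -- phase 2
  obtain ⟨u0, v0, f0, l0, m0⟩ := dstep_blk k 0 q r hrk
  obtain ⟨u1, v1, f1, l1, m1⟩ := dstep_blk k 1 q r hrk
  obtain ⟨u2, v2, f2, l2, m2⟩ := dstep_blk k 2 q r hrk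
  obtain ⟨u3, v3, f3, l3, m3⟩ := dstep_blk k 3 q r hrk
  -- the words produced
  set X := List.replicate j 0 with hX
  set wS := List.replicate ((k + 1) * (k - r) - 1) 0 ++ sh k d.1 ::
    List.replicate ((k + 1) * d.2.2.2) (sb k d.1) with hwS
  set wA := List.replicate ((k + 1) * (if d.2.2.1 then k else 1)) (sb k d.1) with hwA
  set wH := blk k 0 d.1 ++ cps (if d.2.1 then r else 0) (blk k 1 d.1) with hwH
  set wB := cps (if d.2.1 then k else 1) (blk k 1 d.1) with hwB
  have s4 := dstep_block (V := V) hS u0 v0 m0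
    (cps M (blk k 1 q) ++ (blk k 2 q ++ cps a (blk k 3 q)))
  rw [← f0, l0, ← hj] at s4
  have s5 := dstep_blocks (V := V) hA u1 v1 m1 M ((blk k 2 q ++ cps a (blk k 3 q)) ++ wS)
  rw [← f1, l1, ← hj] at s5
  have s6 := dstep_block (V := V) hH u2 v2 m2 ((cps a (blk k 3 q) ++ wS) ++ cps M wA)
  rw [← f2, l2, ← hj] at s6
  have s7 := dstep_blocks (V := V) hB u3 v3 m3 a (((wS ++ cps M wA) ++ wH))
  rw [← f3, l3, ← hj] at s7
  -- phase 3
  have s8 := dstep_skip (V := V) (P := P) X 0
    ((((sh k d.1 :: List.replicate ((k + 1) * d.2.2.2) (sb k d.1)) ++ cps M wA) ++ wH) ++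
      cps a wB)
  rw [hX, List.length_replicate, Nat.zero_add, ← hX] at s8
  have e2 : ((((sh k d.1 :: List.replicate ((k + 1) * d.2.2.2) (sb k d.1)) ++ cps M wA) ++ wH) ++
      cps a wB) = conf k (astep k (dlt k Q0 q0 tab) (q, M, N)) := by
    have h2 : astep k (dlt k Q0 q0 tab) (q, M, N) = (d.1, (if d.2.1 then N else a),
        (if d.2.2.1 then k * M else M) + d.2.2.2) := rfl
    rw [h2]
    unfold conf
    have h3 : List.replicate ((k + 1) * d.2.2.2) (sb k d.1) ++ cps M wA =
        List.replicate ((k + 1) * ((if d.2.2.1 then k * M else M) + d.2.2.2)) (sb k d.1) := by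
      rw [hwA, dstep_cps_rep, List.replicate_append_replicate]
      congr 1
      cases d.2.2.1
      · simp only [Bool.false_eq_true, if_false]
        ring
      · simp only [if_true]
        ring
    have h4 : cps (if d.2.1 then r else 0) (blk k 1 d.1) ++ cps a wB =
        cps (if d.2.1 then N else a) (blk k 1 d.1) := by
      rw [hwB, dstep_cps_mul, ← dstep_cps_add]
      cases d.2.1
      · simp only [Bool.false_eq_true, if_false]
        rw [Nat.zero_add, Nat.mul_one]
      · simp only [if_true]
        congr 1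
        rw [hN]
        ring
    show _ = sh k d.1 :: (List.replicate ((k + 1) * ((if d.2.2.1 then k * M else M) + d.2.2.2))
      (sb k d.1) ++ (blk k 0 d.1 ++ cps (if d.2.1 then N else a) (blk k 1 d.1)))
    rw [← h3, ← h4, hwH]
    simp only [List.append_assoc, List.cons_append]
  rw [e2] at s8
  have t0 := dstep_trans' s1 s2 (by
    rw [e1]
    simp only [List.append_assoc])
  have t1 := dstep_trans' t0 s3 (by simp only [List.append_assoc])
  have t2 := dstep_trans' t1 s4 (by simp only [List.append_assoc])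
  have t3 := dstep_trans' t2 s5 (by simp only [List.append_assoc])
  have t4 := dstep_trans' t3 s6 (by simp only [List.append_assoc])
  have t5 := dstep_trans' t4 s7 (by simp only [List.append_assoc])
  have t6 := dstep_trans' t5 s8 (by
    rw [← e2, hwS, hX]
    simp only [List.append_assoc, List.cons_append]
    rfl)
  exact ⟨_, by omega, t6.1, t6.2⟩

end PCP4
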